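import Pool.Agent.W181.RT.Props

set_option autoImplicit false

namespace Pool.Agent.W650.RT

open Polynomial Pool.Agent.W181.RT

theorem det_zero {R : Type} [CommRing R] (W P : Polynomial R) (N : ℕ)
    (h0 : W.coeff 0 = 1) (hb : ∀ n, N < n → W.coeff n = 0)
    (hW : ∀ n, N ≤ n → (W * P).coeff n = 0) (α : Fin (N + 1) → ℕ) :
    hk (fun a => P.coeff a) (N + 1) α = 0 := by
  unfold hk
  set M : Matrix (Fin (N + 1)) (Fin (N + 1)) R :=
    Matrix.of fun (l c : Fin (N + 1)) => P.coeff (α l + (c : ℕ)) with hM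
  set v : Fin (N + 1) → R := fun c => W.coeff (N - (c : ℕ)) with hv
  have hMv : M.mulVec v = 0 := by
    funext l
    have h1 := hW (N + α l) (by omega)
    rw [Polynomial.coeff_mul, Finset.Nat.sum_antidiagonal_eq_sum_range_succ_mk] at h1
    simp only at h1
    have h2 : ∑ x ∈ Finset.range (N + α l).succ, W.coeff x * P.coeff (N + α l - x)
        = ∑ x ∈ Finset.range (N + 1), W.coeff x * P.coeff (N + α l - x) := by
      symm
      apply Finset.sum_subset
      · intro x hx
        simp only [Finset.mem_range] at *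
        omega
      · intro x _ hx
        simp only [Finset.mem_range, not_lt] at hx
        rw [hb x (by omega), zero_mul]
    rw [h2] at h1
    have h3 : ∑ x ∈ Finset.range (N + 1), W.coeff x * P.coeff (N + α l - x)
        = ∑ c : Fin (N + 1), P.coeff (α l + (c : ℕ)) * W.coeff (N - (c : ℕ)) := by
      rw [← Finset.sum_range_reflect,
        ← Fin.sum_univ_eq_sum_range (fun c => W.coeff (N + 1 - 1 - c) * P.coeff (N + α l - (N + 1 - 1 - c)))]
      apply Finset.sum_congr rfl
      intro c _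
      have hc := c.2
      have e1 : N + 1 - 1 - (c : ℕ) = N - (c : ℕ) := by omega
      have e2 : N + α l - (N - (c : ℕ)) = α l + (c : ℕ) := by omega
      rw [e1, e2, mul_comm]
    rw [h3] at h1
    simpa [Matrix.mulVec, dotProduct, hM, hv] using h1
  have h4 : M.det • v = 0 := by
    have h5 : (M.adjugate * M).mulVec v = 0 := by
      rw [← Matrix.mulVec_mulVec, hMv, Matrix.mulVec_zero]
    rw [Matrix.adjugate_mul, Matrix.smul_mulVec, Matrix.one_mulVec] at h5
    exact h5
  have h6 := congrFun h4 (Fin.last N)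
  simpa [hv, h0] using h6

theorem t_VAN : S_VAN := by
  intro ℓ k
  have hq : qq ℓ k = fun a => (PP ℓ k).coeff a := rfl
  rw [PI, Ideal.span_eq_bot]
  rintro x ⟨α, rfl⟩
  rw [hq]
  rcases le_total k ℓ with h | h
  · have hm : min k ℓ = k := min_eq_left h
    revert α
    rw [hm]
    intro α
    apply det_zero (TT ℓ k) (PP ℓ k) k (TT_coeff_zero ℓ k) (TT_coeff_big ℓ k)
    intro n hn
    rw [TP, Polynomial.coeff_derivative, TT_coeff_big ℓ k (n + 1) (by omega), zero_mul]
  · have hm : min k ℓ = ℓ := min_eq_right h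
    revert α
    rw [hm]
    intro α
    apply det_zero (SS ℓ k) (PP ℓ k) ℓ (SS_coeff_zero ℓ k) (SS_coeff_big ℓ k)
    intro n hn
    rw [SP, Polynomial.coeff_neg, Polynomial.coeff_derivative, SS_coeff_big ℓ k (n + 1) (by omega),
      zero_mul, neg_zero]

theorem smul_eq (ℓ k : ℕ) (c : ℚ) (x : RR ℓ k) : c • x = algebraMap ℚ (RR ℓ k) c * x :=
  Algebra.smul_def c x

theorem t_STAB : S_STAB := by
  intro ℓ k m x hx
  have hle : PI (qq ℓ k) m ≤ (PI (qq ℓ k) m).comap (sig ℓ k).toRingHom := by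
    rw [PI, Ideal.span_le]
    rintro y ⟨α, rfl⟩
    show sig ℓ k (hk (qq ℓ k) m α) ∈ Ideal.span (Set.range (hk (qq ℓ k) m))
    have h1 : sig ℓ k (hk (qq ℓ k) m α)
        = ((∏ l : Fin m, (2 : RR ℓ k) ^ (α l + 1)) * (∏ c : Fin m, (2 : RR ℓ k) ^ (c : ℕ)))
          * hk (qq ℓ k) m α := by
      unfold hk
      rw [AlgHom.map_det]
      have h2 : (sig ℓ k).mapMatrix (Matrix.of fun (l c : Fin m) => qq ℓ k (α l + (c : ℕ)))
          = Matrix.of fun (l c : Fin m) => (2 : RR ℓ k) ^ (α l + 1) *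
            (Matrix.of (fun (l c : Fin m) => (2 : RR ℓ k) ^ (c : ℕ) *
              (Matrix.of fun (l c : Fin m) => qq ℓ k (α l + (c : ℕ))) l c)) l c := by
        ext l c
        have h3 := (mem_RD ℓ k _ _).mp (qq_mem ℓ k (α l + (c : ℕ)))
        simp only [AlgHom.mapMatrix_apply, Matrix.map_apply, Matrix.of_apply]
        rw [h3]
        have h4 := smul_eq ℓ k ((2 : ℚ) ^ (α l + (c : ℕ) + 1)) (qq ℓ k (α l + (c : ℕ)))
        rw [map_pow, map_ofNat] at h4
        rw [h4]
        ring
      rw [h2, Matrix.det_mul_column, Matrix.det_mul_row, mul_assoc]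
    rw [h1]
    exact Ideal.mul_mem_left _ _ (Ideal.subset_span ⟨α, rfl⟩)
  exact hle hx

end Pool.Agent.W650.RT
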